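import Mathlib

set_option autoImplicit false

namespace Pool.Agent.Results.MP_664f87_an.NotCZDS

open Polynomial Finset
open scoped Nat

/-- Number of non-real zeros, with multiplicity. -/
noncomputable def Zc (f : ℝ[X]) : ℕ := (f.aroots ℂ).countP fun z => z.im ≠ 0

/-- The operator `Σ a_k x^k ↦ Σ (1+k+k²)/k! · a_k x^k`. -/
noncomputable def G (f : ℝ[X]) : ℝ[X] :=
  f.sum fun k a => monomial k ((1 + k + k ^ 2) / k ! * a)

lemma G_coeff (f : ℝ[X]) (k : ℕ) : (G f).coeff k = (1 + k + k ^ 2) / k ! * f.coeff k := by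
  simp only [G, Polynomial.sum, finsetSum_coeff, coeff_monomial]
  rw [Finset.sum_ite_eq']
  split_ifs with h
  · rfl
  · simp [notMem_support_iff.1 h]

def c (i : ℕ) : ℚ := (-1) ^ i * (49 !) / ((i + 1)! * (48 - i)! * i !)
def l (k : ℕ) : ℚ := k ! / (1 + k + k ^ 2)

lemma neg : ∑ i ∈ range 49, ∑ j ∈ range 49, l (i + j) * (c i * c j) + 1 < 0 := by
  decide +kernel

noncomputable def q : ℝ[X] := ∑ i ∈ range 49, monomial i (c i : ℝ)
noncomputable def f : ℝ[X] :=
  ∑ i ∈ range 49, ∑ j ∈ range 49, monomial (i + j) (l (i + j) * (c i * c j) : ℝ) + 1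

lemma Gf : G f = q ^ 2 + 1 := by
  ext k
  rw [q, sq, sum_mul_sum]
  simp only [G_coeff, f, sq, monomial_mul_monomial, coeff_add, finsetSum_coeff,
    coeff_monomial, mul_add, mul_sum, coeff_one]
  congr 1
  · refine sum_congr rfl fun i _ => sum_congr rfl fun j _ => ?_
    split_ifs with h
    · rw [h, l]
      push_cast
      field_simp
    · simp
  · split_ifs with h <;> simp [h]

lemma gpos (k : ℕ) : (0 : ℝ) < (1 + k + k ^ 2) / k ! := by positivity

theorem result : ∃ f : ℝ[X], Zc f < Zc (G f) := by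
  have pos : ∀ x, 0 < (G f).eval x := fun x => by
    rw [Gf, eval_add, eval_pow, eval_one]
    positivity
  have card : ∀ p : ℝ[X], (p.aroots ℂ).card = p.natDegree := fun p =>
    IsAlgClosed.card_aroots_eq_natDegree
  have h1 : Zc (G f) = (G f).natDegree := by
    rw [← card, Zc, Multiset.countP_eq_card]
    intro z hz h
    have := (mem_aroots.1 hz).2
    rw [← Complex.re_add_im z, h, Complex.ofReal_zero, zero_mul, add_zero, ← Complex.coe_algebraMap,
      aeval_algebraMap_apply, coe_aeval_eq_eval] at this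
    exact (pos _).ne' (by simpa using this)
  have h2 : f.natDegree ≤ (G f).natDegree := natDegree_le_iff_coeff_eq_zero.2 fun k hk => by
    have := coeff_eq_zero_of_natDegree_lt hk
    rw [G_coeff] at this
    exact (mul_eq_zero.1 this).resolve_left (gpos k).ne'
  have e0 : 0 < f.eval 0 := by
    have := pos 0
    rw [← coeff_zero_eq_eval_zero, G_coeff] at this
    simpa [coeff_zero_eq_eval_zero] using this
  have e1 : f.eval 1 < 0 := by
    simp only [f, eval_add, eval_finsetSum, eval_monomial, one_pow, mul_one, eval_one]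
    exact_mod_cast neg
  obtain ⟨r, -, hr⟩ := intermediate_value_Icc' zero_le_one f.continuous.continuousOn
    ⟨e1.le, e0.le⟩
  refine ⟨f, lt_of_lt_of_le (lt_of_le_of_ne (Multiset.countP_le_card _ _) fun h => ?_)
    (by rw [card, h1]; exact h2)⟩
  refine Multiset.countP_eq_card.1 h r (mem_aroots.2 ⟨fun h => by simp [h] at e0, ?_⟩) (by simp)
  rw [← Complex.coe_algebraMap, aeval_algebraMap_apply, coe_aeval_eq_eval]
  simpa using hr

end Pool.Agent.Results.MP_664f87_an.NotCZDS
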